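import Pool.Agent.H8.Ptak.Fin

set_option autoImplicit false

open Set Complex Polynomial

namespace Pool.Agent.Results.MP_a1a577_an.WorstPolynomial

/-- `n`-dimensional complex Hilbert space -/
abbrev Hn (n : ℕ) : Type := EuclideanSpace ℂ (Fin n)

/-- `A(p)`: contractions `T` on `H_n` with `p(T) = 0` -/
def A (n : ℕ) (p : ℂ[X]) : Set (Hn n →L[ℂ] Hn n) := {T | ‖T‖ ≤ 1 ∧ aeval T p = 0}

/-- the `k`-th term `f^(k)(0)/k! T^k` of the Taylor series of `f` at `T` -/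
noncomputable def term {n : ℕ} (f : ℂ → ℂ) (T : Hn n →L[ℂ] Hn n) (k : ℕ) : Hn n →L[ℂ] Hn n :=
  (iteratedDeriv k f 0 / (k.factorial : ℂ)) • T ^ k

/-- `f(T) = ∑ f^(k)(0)/k! T^k` (`f` holomorphic on the unit disc, spectrum of `T` in the disc) -/
noncomputable def fOf {n : ℕ} (f : ℂ → ℂ) (T : Hn n →L[ℂ] Hn n) : Hn n →L[ℂ] Hn n :=
  ∑' k : ℕ, term f T k

/-- the set of the numbers `‖f(T)‖`, `T ∈ A(p)` -/
def vals (n : ℕ) (p : ℂ[X]) (f : ℂ → ℂ) : Set ℝ := (fun T => ‖fOf f T‖) '' A n p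

/-- `C(p,f)`, the supremum of `‖f(T)‖` over `A(p)` -/
noncomputable def Cpf (n : ℕ) (p : ℂ[X]) (f : ℂ → ℂ) : ℝ := sSup (vals n p f)

/-- the Taylor series of `f` converges at every `T ∈ A(p)` -/
def Converges (n : ℕ) (p : ℂ[X]) (f : ℂ → ℂ) : Prop := ∀ T ∈ A n p, Summable (term f T)

/-- `𝒫_{n,r}`: polynomials of degree `n` with all roots in `|z| ≤ r` -/
def Pnr (n : ℕ) (r : ℝ) : Set ℂ[X] := {p | p.natDegree = n ∧ ∀ z, p.IsRoot z → ‖z‖ ≤ r}

/-- `p` is a worst polynomial for `f` -/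
def IsWorst (n : ℕ) (r : ℝ) (f : ℂ → ℂ) (p : ℂ[X]) : Prop :=
  p ∈ Pnr n r ∧ ∀ q ∈ Pnr n r, Cpf n q f ≤ Cpf n p f

open Pool.Agent.H8.Ptak

theorem exists_roots (n : ℕ) (hn : 1 ≤ n) (r : ℝ) (p : ℂ[X]) (hp : p ∈ Pnr n r) :
    ∃ b : Fin n → ℂ, (∀ j, ‖b j‖ ≤ r) ∧ A n p = A n (pb b) := by
  obtain ⟨hd, hr⟩ := hp
  have hp0 : p ≠ 0 := by
    rintro rfl; simp at hd; omega
  have hs : p.Splits := IsAlgClosed.splits p
  have hcard : Multiset.card p.roots = n := by rw [← hd]; exact hs.natDegree_eq_card_roots.symm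
  obtain ⟨l, hl⟩ : ∃ l : List ℂ, (l : Multiset ℂ) = p.roots := Quotient.exists_rep p.roots
  have hll : l.length = n := by rw [← hcard, ← hl]; rfl
  subst hll
  refine ⟨l.get, fun j => ?_, ?_⟩
  · apply hr
    have : l.get j ∈ p.roots := by rw [← hl]; exact List.get_mem l j
    exact (mem_roots hp0).1 this
  · have h1 : p = C p.leadingCoeff * pb l.get := by
      conv_lhs => rw [hs.eq_prod_roots]
      congr 1
      rw [pb_eq, Fin.univ_val_map, List.ofFn_get, hl]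
      rfl
    have hlc : p.leadingCoeff ≠ 0 := leadingCoeff_ne_zero.2 hp0
    ext T
    simp only [A, mem_ofPred_eq]
    refine and_congr_right fun _ => ?_
    conv_lhs => rw [h1]
    rw [map_mul, aeval_C, Algebra.algebraMap_eq_smul_one, smul_mul_assoc, one_mul, smul_eq_zero]
    simp [hlc]

theorem pb_mem (n : ℕ) (r : ℝ) (b : Fin n → ℂ) (hb : ∀ j, ‖b j‖ ≤ r) : pb b ∈ Pnr n r := by
  constructor
  · unfold pb
    rw [natDegree_finsetProd_X_sub_C_eq_card]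
    simp
  · intro z hz
    unfold pb at hz
    rw [IsRoot.def, eval_prod, Finset.prod_eq_zero_iff] at hz
    obtain ⟨j, _, hj⟩ := hz
    have : z = b j := by
      rw [eval_sub, eval_X, eval_C] at hj
      exact sub_eq_zero.1 hj
    rw [this]; exact hb j

theorem isGreatest_single (n : ℕ) (hn : 1 ≤ n) (r : ℝ) (hr0 : 0 < r) (hr : r < 1) (f : ℂ → ℂ)
    (hf : DifferentiableOn ℂ f (Metric.ball 0 1)) (p : ℂ[X]) (hp : p ∈ Pnr n r) :
    IsGreatest (vals n p f) (Cpf n p f) := by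
  obtain ⟨b, hb, hA⟩ := exists_roots n hn r p hp
  obtain ⟨b', hb', T, hT1, hT, hmax⟩ := attain n hn r hr0 hr f hf {b} isCompact_singleton
    (singleton_nonempty b) (fun b' hb' => by rw [mem_singleton_iff.1 hb']; exact hb)
  rw [mem_singleton_iff.1 hb'] at hT
  have h1 : IsGreatest (vals n p f) (‖fOf f T‖) := by
    constructor
    · exact ⟨T, by rw [hA]; exact ⟨hT1, hT⟩, rfl⟩
    · rintro _ ⟨T', hT', rfl⟩
      rw [hA] at hT'
      exact hmax b rfl T' hT'.1 hT'.2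
  have : Cpf n p f = ‖fOf f T‖ := h1.csSup_eq
  rw [this]; exact h1

theorem isWorst_of (n : ℕ) (hn : 1 ≤ n) (r : ℝ) (hr0 : 0 < r) (hr : r < 1) (f : ℂ → ℂ)
    (hf : DifferentiableOn ℂ f (Metric.ball 0 1)) (b : Fin n → ℂ) (hb : ∀ j, ‖b j‖ ≤ r)
    (T : Hn n →L[ℂ] Hn n) (hT1 : ‖T‖ ≤ 1) (hT : aeval T (pb b) = 0)
    (hmax : ∀ T' ∈ TT n r, ‖fT f T'‖ ≤ ‖fT f T‖) : IsWorst n r f (pb b) := by
  refine ⟨pb_mem n r b hb, fun q hq => ?_⟩
  obtain ⟨⟨T', hT', he⟩, -⟩ := isGreatest_single n hn r hr0 hr f hf q hq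
  rw [← he]
  have h1 := (isGreatest_single n hn r hr0 hr f hf (pb b) (pb_mem n r b hb)).2
  have h2 : ‖fOf f T‖ ≤ Cpf n (pb b) f := h1 ⟨T, ⟨hT1, hT⟩, rfl⟩
  refine le_trans ?_ h2
  apply hmax
  obtain ⟨c, hc, hA⟩ := exists_roots n hn r q hq
  rw [hA] at hT'
  refine ⟨hT'.1, Finset.univ.val.map c, by simp, ?_, by rw [← pb_eq]; exact hT'.2⟩
  intro a ha
  obtain ⟨j, _, rfl⟩ := Multiset.mem_map.1 ha
  exact hc j

/-- **Both questions have a positive answer**: for every `f` holomorphic on the unit disc, some worst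
polynomial is `(z - a)^n`, and some worst polynomial has all its roots on the circle `|z| = r`. -/
theorem result (n : ℕ) (hn : 1 ≤ n) (r : ℝ) (hr0 : 0 < r) (hr : r < 1) (f : ℂ → ℂ)
    (hf : DifferentiableOn ℂ f (Metric.ball 0 1)) :
    (∀ p ∈ Pnr n r, Converges n p f ∧ IsGreatest (vals n p f) (Cpf n p f)) ∧
    (∃ a : ℂ, ‖a‖ ≤ r ∧ IsWorst n r f ((X - C a) ^ n)) ∧
    (∃ p : ℂ[X], IsWorst n r f p ∧ ∀ z, p.IsRoot z → ‖z‖ = r) := by
  refine ⟨fun p hp => ⟨fun T hT => ?_, isGreatest_single n hn r hr0 hr f hf p hp⟩, ?_, ?_⟩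
  · obtain ⟨u, hu, hub, -⟩ := term_bound n r hr0 hr f hf
    obtain ⟨c, hc, hA⟩ := exists_roots n hn r p hp
    rw [hA] at hT
    refine Summable.of_norm_bounded hu (hub T ⟨hT.1, Finset.univ.val.map c, by simp, ?_, by rw [← pb_eq]; exact hT.2⟩)
    intro a ha
    obtain ⟨j, _, rfl⟩ := Multiset.mem_map.1 ha
    exact hc j
  · -- Q1
    let 𝒞 : Set (Fin n → ℂ) := (fun c : ℂ => fun _ : Fin n => c) '' Metric.closedBall 0 r
    have h𝒞 : IsCompact 𝒞 := (isCompact_closedBall 0 r).image (by fun_prop)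
    have hne : 𝒞.Nonempty := ⟨_, 0, by simp [hr0.le], rfl⟩
    have hsub : ∀ b ∈ 𝒞, ∀ j, ‖b j‖ ≤ r := by
      rintro _ ⟨c, hc, rfl⟩ j
      simpa using hc
    obtain ⟨b, hb, T, hT1, hT, hmax⟩ := attain n hn r hr0 hr f hf 𝒞 h𝒞 hne hsub
    obtain ⟨a, ha, rfl⟩ := hb
    have har : ‖a‖ ≤ r := by simpa using ha
    have hpb : ∀ c : ℂ, pb (fun _ : Fin n => c) = (X - C c) ^ n := by
      intro c; unfold pb; simp
    have hrep : ∀ c : ℂ, pb (fun _ : Fin n => c) = pp (Multiset.replicate n c) := by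
      intro c; rw [hpb]; unfold pp; simp
    refine ⟨a, har, ?_⟩
    rw [← hpb]
    refine isWorst_of n hn r hr0 hr f hf _ (fun _ => har) T hT1 hT ?_
    refine main_ineq n r hr0 hr f hf {s | ∃ c : ℂ, ‖c‖ ≤ r ∧ s = Multiset.replicate n c} ?_ ?_ _ (norm_nonneg _) ?_
    · rintro s ⟨c, hc, rfl⟩
      refine ⟨Multiset.card_replicate _ _, fun a ha => ?_⟩
      rw [Multiset.eq_of_mem_replicate ha]; exact hc
    · intro g S hB s hs hcard
      exact q1_bound g n hn S r hr (fun d hd => hB _ ⟨d, hd, rfl⟩) s hs hcard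
    · rintro s ⟨c, hc, rfl⟩ T' hT'1 hT'
      rw [← hrep] at hT'
      exact hmax _ ⟨c, by simpa using hc, rfl⟩ T' hT'1 hT'
  · -- Q2
    let 𝒞 : Set (Fin n → ℂ) := Set.pi Set.univ fun _ => Metric.sphere 0 r
    have h𝒞 : IsCompact 𝒞 := isCompact_univ_pi fun _ => isCompact_sphere 0 r
    have hne : 𝒞.Nonempty := ⟨fun _ => (r : ℂ), fun j _ => by
      rw [mem_sphere_zero_iff_norm, norm_real, Real.norm_eq_abs, abs_of_pos hr0]⟩
    have hmem : ∀ b : Fin n → ℂ, b ∈ 𝒞 ↔ ∀ j, ‖b j‖ = r := by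
      intro b
      simp [𝒞, Set.mem_pi]
    obtain ⟨b, hb, T, hT1, hT, hmax⟩ := attain n hn r hr0 hr f hf 𝒞 h𝒞 hne
      (fun b hb j => ((hmem b).1 hb j).le)
    have hbr := (hmem b).1 hb
    refine ⟨pb b, ?_, ?_⟩
    · refine isWorst_of n hn r hr0 hr f hf _ (fun j => (hbr j).le) T hT1 hT ?_
      refine main_ineq n r hr0 hr f hf {s | ∃ c : Fin n → ℂ, (∀ j, ‖c j‖ = r) ∧ s = Finset.univ.val.map c}
        ?_ ?_ _ (norm_nonneg _) ?_
      · rintro s ⟨c, hc, rfl⟩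
        refine ⟨by simp, fun a ha => ?_⟩
        obtain ⟨j, _, rfl⟩ := Multiset.mem_map.1 ha
        exact (hc j).le
      · intro g S hB s hs hcard
        refine q2_bound g n S r hr (fun s' hs' hc' => hB s' ?_) s hs hcard
        obtain ⟨l, hl⟩ : ∃ l : List ℂ, (l : Multiset ℂ) = s' := Quotient.exists_rep s'
        have hll : l.length = n := by rw [← hc', ← hl]; rfl
        subst hll
        refine ⟨l.get, fun j => hs' _ ?_, ?_⟩
        · rw [← hl]; exact List.get_mem l j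
        · rw [Fin.univ_val_map, List.ofFn_get, hl]
      · rintro s ⟨c, hc, rfl⟩ T' hT'1 hT'
        rw [← pb_eq] at hT'
        exact hmax c ((hmem c).2 hc) T' hT'1 hT'
    · intro z hz
      unfold pb at hz
      rw [IsRoot.def, eval_prod, Finset.prod_eq_zero_iff] at hz
      obtain ⟨j, _, hj⟩ := hz
      have : z = b j := by
        rw [eval_sub, eval_X, eval_C] at hj
        exact sub_eq_zero.1 hj
      rw [this]; exact hbr j

end Pool.Agent.Results.MP_a1a577_an.WorstPolynomial
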